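import Pool.Agent.H92.AR.Main

set_option autoImplicit false

/-! Problem MP_04c775_lc, question Q1: almost complete PA degrees above arbitrary sets, in particular
above almost complete 1-random sets. -/

namespace Pool.Agent.Results.MP_04c775_lc.PAAboveEverySet

open Pool.Agent.Helper743 Pool.Agent.Helper743.KT Nat.Partrec

/-- `A` is Turing reducible to `B`, for sets given by their characteristic functions. -/
def Below (A B : ℕ → Bool) : Prop :=
  TuringReducible (fun n => Part.some (A n).toNat : ℕ →. ℕ)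
    (fun n => Part.some (B n).toNat : ℕ →. ℕ)

/-- `f` is upper semicomputable relative to the set `B`: the set of the pairs `(n, k)` with
`f n ≤ k` is the domain of a function that is partial computable relative to `B`. -/
def UpperSemi (B : ℕ → Bool) (f : ℕ → ℕ) : Prop :=
  ∃ φ : ℕ →. ℕ, TuringReducible φ (fun n => Part.some (B n).toNat : ℕ →. ℕ) ∧
    ∀ n k : ℕ, (φ (Nat.pair n k)).Dom ↔ f n ≤ k

/-- All finite sums of the numbers `2 ^ (- f n)` are at most `1`. -/
def KraftSum (f : ℕ → ℕ) : Prop := ∀ s : Finset ℕ, ∑ n ∈ s, (1 / 2 : ℝ) ^ f n ≤ 1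

/-- `κ` is (a version of) prefix-free Kolmogorov complexity relative to `B`, on natural numbers:
the least function up to an additive constant among the functions which are upper semicomputable
relative to `B` and satisfy the Kraft inequality. -/
def IsComplexity (B : ℕ → Bool) (κ : ℕ → ℕ) : Prop :=
  UpperSemi B κ ∧ KraftSum κ ∧
    ∀ f : ℕ → ℕ, UpperSemi B f → KraftSum f → ∃ c : ℕ, ∀ n, κ n ≤ f n + c

/-- `X` is K-trivial relative to `B`: the complexity relative to `B` of the string of the first
`n` bits of `X` exceeds the complexity relative to `B` of `n` by at most a constant. Strings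
are coded by natural numbers in the standard way. -/
def KTrivialRel (X B : ℕ → Bool) : Prop :=
  ∃ κ : ℕ → ℕ, IsComplexity B κ ∧
    ∃ c : ℕ, ∀ n : ℕ, κ (Encodable.encode (List.ofFn (fun i : Fin n => X i))) ≤ κ n + c

/-- The halting problem. -/
noncomputable def haltingSet (n : ℕ) : Bool :=
  open Classical in decide (Code.eval (Denumerable.ofNat Code n) n).Dom

/-- `B` is almost complete: the halting problem is K-trivial relative to `B`. -/
def AlmostComplete (B : ℕ → Bool) : Prop := KTrivialRel haltingSet B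

/-- The degree of `X` is PA: every partial computable function with values in `{0, 1}` has a total
extension with values in `{0, 1}` which is computable from `X`. -/
def IsPA (X : ℕ → Bool) : Prop :=
  ∀ f : ℕ →. Bool, Partrec f → ∃ g : ℕ → Bool, Below g X ∧ ∀ n b, b ∈ f n → g n = b

/-- (1) Let `Z` be any set and let `D 0, D 1, ...` be sets which are not computable from `Z`. There
is an almost complete set `X` of PA degree which computes `Z` and none of the sets `D n`.
(2) In particular every set `Z` which does not compute the halting problem, for instance every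
Turing incomplete almost complete 1-random set, is computable from an almost complete set `X` of PA
degree which does not compute the halting problem; there are even two such sets `X` and `X'` such
that all sets computable from both are computable from `Z`. -/
theorem result :
    (∀ (Z : ℕ → Bool) (D : ℕ → ℕ → Bool), (∀ n, ¬ Below (D n) Z) →
      ∃ X : ℕ → Bool, Below Z X ∧ IsPA X ∧ AlmostComplete X ∧ ∀ n, ¬ Below (D n) X) ∧
    ∀ Z : ℕ → Bool, ¬ Below haltingSet Z → ∃ X X' : ℕ → Bool,
      (Below Z X ∧ IsPA X ∧ AlmostComplete X ∧ ¬ Below haltingSet X) ∧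
      (Below Z X' ∧ IsPA X' ∧ AlmostComplete X' ∧ ¬ Below haltingSet X') ∧
      ∀ D : ℕ → Bool, Below D X → Below D X' → Below D Z := by
  classical
  have hUp : ∀ (B : ℕ → Bool) (f : ℕ → ℕ), UpperSemi B f ↔ UpS (fun n => (B n).toNat) f := by
    intro B f
    constructor
    · rintro ⟨φ, h1, h2⟩
      exact ⟨φ, RecursiveIn.iff_nat.1 h1, h2⟩
    · rintro ⟨φ, h1, h2⟩
      exact ⟨φ, RecursiveIn.iff_nat.2 h1, h2⟩
  have hBel : ∀ A B : ℕ → Bool, Below A B ↔ TR (fun n => (A n).toNat) (fun n => (B n).toNat) :=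
    fun A B => TR_iff.symm
  have hOpt : ∀ (B : ℕ → Bool) (κ : ℕ → ℕ), Opt (fun n => (B n).toNat) κ → IsComplexity B κ := by
    intro B κ h
    refine ⟨(hUp B κ).2 h.1, h.2.1, fun f hf hk => h.2.2 f ((hUp B f).1 hf) hk⟩
  have key : ∀ (Z : ℕ → Bool) (C : ℕ → ℕ → ℕ), (∀ n, ¬ TR (C n) (fun n => (Z n).toNat)) →
      ∃ X : ℕ → Bool, Below Z X ∧ IsPA X ∧ AlmostComplete X ∧
        ∀ n, ¬ TR (C n) (fun n => (X n).toNat) := by
    intro Z C hC
    obtain ⟨G, h1, h2, h3, c, h4⟩ := Pool.Agent.H92.AR.exists_PA_triv (fun n => (Z n).toNat)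
      (fun n => Bool.toNat_lt (Z n)) C hC
    refine ⟨gr G, ?_, ?_, ?_, ?_⟩
    · rw [hBel]
      exact TR.trans h1 (TR_gr G)
    · intro f hf
      obtain ⟨g, h5, h6⟩ := h3 f hf
      refine ⟨g, ?_, h6⟩
      rw [hBel]
      exact TR.trans h5 (TR_gr G)
    · refine ⟨KG G, hOpt _ _ (Opt_of_TR (TR_gr _) (gr_TR _) (Opt_KG _)), c, fun n => ?_⟩
      have h5 := h4 n
      rw [kstr_eq] at h5
      exact h5
    · intro n h5
      exact h2 n (TR.trans h5 (gr_TR G))
  have key1 : ∀ (Z : ℕ → Bool) (D : ℕ → ℕ → Bool), (∀ n, ¬ Below (D n) Z) →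
      ∃ X : ℕ → Bool, Below Z X ∧ IsPA X ∧ AlmostComplete X ∧ ∀ n, ¬ Below (D n) X := by
    intro Z D hD
    obtain ⟨X, h1, h2, h3, h4⟩ := key Z (fun n m => (D n m).toNat)
      (fun n h => hD n ((hBel _ _).2 h))
    exact ⟨X, h1, h2, h3, fun n h => h4 n ((hBel _ _).1 h)⟩
  refine ⟨key1, fun Z hZ => ?_⟩
  obtain ⟨X, h1, h2, h3, h4⟩ := key1 Z (fun _ => haltingSet) (fun _ => hZ)
  obtain ⟨C, hC⟩ := Pool.Agent.H92.AR.enum_below (fun n => (X n).toNat)
  -- replace the functions computable from `Z` by the halting problem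
  set C' : ℕ → ℕ → ℕ := fun n => if TR (C n) (fun n => (Z n).toNat) then
    (fun n => (haltingSet n).toNat) else C n with hC'
  have hC'' : ∀ n, ¬ TR (C' n) (fun n => (Z n).toNat) := by
    intro n h
    simp only [hC'] at h
    split_ifs at h with h5
    · exact hZ ((hBel _ _).2 h)
    · exact h5 h
  have hhalt : ∃ n, C' n = fun n => (haltingSet n).toNat := by
    obtain ⟨n, hn⟩ := hC (fun n => (Z n).toNat) ((hBel _ _).1 h1)
    refine ⟨n, ?_⟩
    simp only [hC']
    rw [if_pos (by rw [hn]; exact TR.refl _)]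
  obtain ⟨X', g1, g2, g3, g4⟩ := key Z C' hC''
  refine ⟨X, X', ⟨h1, h2, h3, h4 0⟩, ⟨g1, g2, g3, ?_⟩, ?_⟩
  · intro h
    obtain ⟨n, hn⟩ := hhalt
    apply g4 n
    rw [hn]
    exact (hBel _ _).1 h
  · intro D hD hD'
    by_contra hne
    rw [hBel] at hne
    obtain ⟨n, hn⟩ := hC (fun n => (D n).toNat) ((hBel _ _).1 hD)
    apply g4 n
    simp only [hC']
    rw [if_neg (by rw [hn]; exact hne), hn]
    exact (hBel _ _).1 hD'

end Pool.Agent.Results.MP_04c775_lc.PAAboveEverySet
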